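import Pool.Agent.Helper68.QC.St3

/-!
# Project QD, PART M, module ENB: energy bound
-/

open MeasureTheory Set Filter Topology Complex
open scoped ContDiff ComplexConjugate ENNReal

namespace Pool.Agent.Helper42.QCM

open Pool.Agent.Helper68.QC

/-- The cutoff function. -/
private noncomputable def gr (M : ℝ) (ζ : ℂ) : ℝ := max 0 (min 1 (M + 1 - ‖ζ‖))

private lemma gr_cont (M : ℝ) : Continuous (gr M) := by
  unfold gr
  fun_prop

private lemma gr_nonneg (M : ℝ) (ζ : ℂ) : 0 ≤ gr M ζ := le_max_left _ _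

private lemma gr_le (M : ℝ) (ζ : ℂ) : gr M ζ ≤ 1 := max_le zero_le_one (min_le_left _ _)

private lemma gr_one (M : ℝ) (ζ : ℂ) (h : ‖ζ‖ ≤ M) : gr M ζ = 1 := by
  unfold gr
  rw [min_eq_left (by linarith), max_eq_right zero_le_one]

private lemma gr_zero (M : ℝ) (ζ : ℂ) (h : ζ ∉ Metric.closedBall (0 : ℂ) (M + 1)) :
    gr M ζ = 0 := by
  rw [Metric.mem_closedBall, dist_zero_right, not_le] at h
  unfold gr
  exact max_eq_left ((min_le_right _ _).trans (by linarith))

/-- ENB (energy bound). -/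
theorem pENB : Pool.Agent.Helper68.QC.StENB := by
  intro k hk0 hk1 R M
  set M' : ℝ := max M 0 with hM'
  have hk2 : 0 < 1 - k ^ 2 := by nlinarith
  set c : ℝ := (1 + k ^ 2) / (1 - k ^ 2) with hc
  have hc0 : 0 ≤ c := by positivity
  refine ⟨c * ∫ z : ℂ, gr M' z, ?_⟩
  intro w a b hQ hw
  have hcv := hQ.cv (fun ζ => ((gr M' ζ : ℝ) : ℂ))
    (Complex.continuous_ofReal.comp (gr_cont M'))
    (HasCompactSupport.intro (isCompact_closedBall (0 : ℂ) (M' + 1)) fun ζ hζ => by
      rw [gr_zero M' ζ hζ, Complex.ofReal_zero])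
  simp only [← Complex.ofReal_mul] at hcv
  rw [integral_complex_ofReal, integral_complex_ofReal] at hcv
  have hcv' : ∫ z : ℂ, gr M' (w z) * jc a b z = ∫ z : ℂ, gr M' z := by exact_mod_cast hcv
  -- integrability on compact sets
  have hsq : ∀ K : Set ℂ, IsCompact K → IntegrableOn (fun z => ‖a z‖ ^ 2) K ∧
      IntegrableOn (fun z => ‖b z‖ ^ 2) K := fun K hK =>
    ⟨(hQ.wd.l2a K (subset_univ K) hK).norm.integrable_sq,
      (hQ.wd.l2b K (subset_univ K) hK).norm.integrable_sq⟩
  have hjcK : ∀ K : Set ℂ, IsCompact K → IntegrableOn (fun z => jc a b z) K := fun K hK =>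
    (hsq K hK).1.sub (hsq K hK).2
  have hjc0 : ∀ᵐ z : ℂ, 0 ≤ jc a b z := by
    filter_upwards [hQ.le] with z hz
    unfold jc
    have h1 : ‖b z‖ ^ 2 ≤ (k * ‖a z‖) ^ 2 := pow_le_pow_left₀ (norm_nonneg _) hz 2
    have h2 : (k * ‖a z‖) ^ 2 ≤ ‖a z‖ ^ 2 := by
      rw [mul_pow]
      nlinarith [sq_nonneg ‖a z‖]
    linarith
  have hle : ∀ᵐ z : ℂ, ‖a z‖ ^ 2 + ‖b z‖ ^ 2 ≤ c * jc a b z := by
    filter_upwards [hQ.le] with z hz
    unfold jc
    have h1 : ‖b z‖ ^ 2 ≤ (k * ‖a z‖) ^ 2 := pow_le_pow_left₀ (norm_nonneg _) hz 2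
    rw [hc, div_mul_eq_mul_div, le_div_iff₀ hk2]
    rw [mul_pow] at h1
    nlinarith
  -- the compact set outside of which the integrand vanishes
  set K : Set ℂ := w ⁻¹' Metric.closedBall (0 : ℂ) (M' + 1) with hK
  have hKc : IsCompact K := by
    rw [hK, ← w.image_symm]
    exact (isCompact_closedBall _ _).image w.symm.continuous
  have hint : Integrable (fun z : ℂ => gr M' (w z) * jc a b z) := by
    have h1 : IntegrableOn (fun z : ℂ => gr M' (w z) * jc a b z) K := by
      refine (hjcK K hKc).bdd_mul (c := 1)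
        ((gr_cont M').comp w.continuous).aestronglyMeasurable.restrict ?_
      refine Filter.Eventually.of_forall fun z => ?_
      rw [Real.norm_eq_abs, abs_of_nonneg (gr_nonneg _ _)]
      exact gr_le _ _
    rw [integrableOn_iff_integrable_of_support_subset] at h1
    · exact h1
    · intro z hz
      by_contra hzK
      apply hz
      have : gr M' (w z) = 0 := gr_zero M' (w z) hzK
      show gr M' (w z) * jc a b z = 0
      rw [this, zero_mul]
  have hnn : ∀ᵐ z : ℂ, 0 ≤ gr M' (w z) * jc a b z := by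
    filter_upwards [hjc0] with z hz
    exact mul_nonneg (gr_nonneg _ _) hz
  have hcb := isCompact_closedBall (0 : ℂ) R
  calc ∫ z in Metric.closedBall (0 : ℂ) R, (‖a z‖ ^ 2 + ‖b z‖ ^ 2)
      ≤ ∫ z in Metric.closedBall (0 : ℂ) R, c * jc a b z := by
        refine integral_mono_ae ((hsq _ hcb).1.add (hsq _ hcb).2) ((hjcK _ hcb).const_mul c) ?_
        exact ae_restrict_of_ae hle
    _ = c * ∫ z in Metric.closedBall (0 : ℂ) R, jc a b z := integral_const_mul _ _
    _ = c * ∫ z in Metric.closedBall (0 : ℂ) R, gr M' (w z) * jc a b z := by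
        congr 1
        refine setIntegral_congr_fun measurableSet_closedBall fun z hz => ?_
        rw [Metric.mem_closedBall, dist_zero_right] at hz
        have : gr M' (w z) = 1 := gr_one M' (w z) ((hw z hz).trans (le_max_left _ _))
        show jc a b z = gr M' (w z) * jc a b z
        rw [this, one_mul]
    _ ≤ c * ∫ z : ℂ, gr M' (w z) * jc a b z :=
        mul_le_mul_of_nonneg_left (setIntegral_le_integral hint hnn) hc0
    _ = c * ∫ z : ℂ, gr M' z := by rw [hcv']

end Pool.Agent.Helper42.QCM
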